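import Pool.Agent.U4.DG.Fin
import Pool.Agent.Y671.GL.EC

/-!
# The derivatives of the L-functions of elliptic curves: almost all zeros are on the line and equally spaced

`E : y² = x³ + a x + b` is an elliptic curve over `ℚ` of conductor `N`, `Λ` its completed L-function and `Λ^(n)` the
`n`-th derivative. The Riemann hypothesis for `L(E, s)` implies that all zeros of all derivatives are on the line
`Re s = 1`, and then their distances even out as `n` grows (Farmer and Rhoades). The mean distance of the zeros at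
height `y` is `π / log y`.

We prove unconditionally, for every `E` and all `ε > 0`, `A`: there are constants `c, C > 0` such that for all `T ≥ 2`
and ALL orders `n ≤ A log T` at most the proportion `C exp (-c n)` of the zeros of `Λ^(n)` with imaginary part in
`(T, 2T]` are irregular, where a zero `s` is called regular if it is simple, on the line, and followed by a simple zero
on the line at the distance `(1 + O(ε)) π / log (Im s)`, with no zeros in between. So the zeros of the
derivatives are evened out, with exponentially small exceptional sets, uniformly in `n` and `T`.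

Proof: at all heights except for a set of proportion `exp (-c n)` the function `Λ` looks at the scale `n / log T` like
`exp (z log T)` plus its reflection (mollified second moment near the line, shifted convolution sums by Jutila's circle
method; project GD2, modules `Pool.Agent.Y671` and imports, by helper671 and helpers 46, 67, 157, 175, 180, 228, 275, 285,
287, 317, 412, 423, 494, 660, 771, 809). New here (`Pool.Agent.U4.DG`, with `Pool.Agent.U4.UH`) are the gaps: `Λ^(n)` is on
the line the real part of one half of Cauchy's integral over a circle of radius of order `n / log T`, and by the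
saddle point method the phase of this half rotates with constant speed.
-/

set_option autoImplicit false

open Complex UpperHalfPlane MatrixGroups CongruenceSubgroup

namespace Pool.Agent.Results.MP_553913_nt.DerivativeSpacings

/-- The coefficient `a_p` of `E : y² = x³ + a x + b` at a prime `p ∤ 2 (4a³ + 27b²)`: `p` minus the
number of pairs `(x, y)` modulo `p` with `y² ≡ x³ + a x + b (mod p)`. -/
noncomputable def ap (a b : ℤ) (p : ℕ) : ℤ :=
  (p : ℤ) - (((Finset.range p ×ˢ Finset.range p).filter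
    (fun xy : ℕ × ℕ => (p : ℤ) ∣ (xy.2 : ℤ) ^ 2 -
      ((xy.1 : ℤ) ^ 3 + a * (xy.1 : ℤ) + b))).card : ℤ)

/-- The `n`-th Fourier coefficient of `f`. -/
noncomputable def coef {N : ℕ} (f : CuspForm (Gamma0 N : Subgroup (GL (Fin 2) ℝ)) 2) (n : ℕ) : ℂ :=
  (qExpansion 1 f).coeff n

/-- `f ∈ S_2(Γ₀(N))` is the newform of the elliptic curve `E : y² = x³ + a x + b` of conductor `N` and
root number `w`: the Fourier coefficients `c(n)` of `f` are real with `c(1) = 1`, they satisfy the
Hecke relations `c(mn) = c(m) c(n)` for coprime `m`, `n` and `c(p^(j+2)) = c(p) c(p^(j+1)) - p c(p^j)`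
(without the last term if `p ∣ N`), `f(-1/(Nτ)) = -w N τ² f(τ)`, `c(p) = a_p(E)` for all primes
`p ∤ 2 (4a³ + 27b²)`, `|c(p)| ≤ 2 √p` for all `p ∤ N` (Hasse) and `c(p) = 0, 1, -1` for `p ∣ N`.
By the modularity theorem (Wiles, Taylor-Wiles, Breuil-Conrad-Diamond-Taylor) it exists for every `E`. -/
structure IsFormOf (a b : ℤ) (N : ℕ) (f : CuspForm (Gamma0 N : Subgroup (GL (Fin 2) ℝ)) 2) (w : ℝ) :
    Prop where
  one : coef f 1 = 1
  real : ∀ n, (coef f n).im = 0
  mul : ∀ m n : ℕ, Nat.Coprime m n → coef f (m * n) = coef f m * coef f n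
  pow : ∀ p j : ℕ, p.Prime → coef f (p ^ (j + 2)) = coef f p * coef f (p ^ (j + 1)) -
      (if p ∣ N then 0 else (p : ℂ) * coef f (p ^ j))
  sign : w = 1 ∨ w = -1
  fricke : ∀ τ τ' : ℍ, (τ' : ℂ) * ((N : ℂ) * (τ : ℂ)) = -1 →
    f τ' = -(w : ℂ) * (N : ℂ) * (τ : ℂ) ^ 2 * f τ
  points : ∀ p : ℕ, p.Prime → ¬ (p : ℤ) ∣ 2 * (4 * a ^ 3 + 27 * b ^ 2) → coef f p = (ap a b p : ℂ)
  good : ∀ p : ℕ, p.Prime → ¬ p ∣ N → ‖coef f p‖ ≤ 2 * Real.sqrt p
  bad : ∀ p : ℕ, p.Prime → p ∣ N → coef f p = 0 ∨ coef f p = 1 ∨ coef f p = -1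

/-- `Λ` is the completed L-function of `f`: it is entire and
`Λ(s) = N^(s/2) (2π)^(-s) Γ(s) ∑ c(n) n^(-s)` for `Re s > 2`. -/
def IsCompleted {N : ℕ} (f : CuspForm (Gamma0 N : Subgroup (GL (Fin 2) ℝ)) 2) (Λ : ℂ → ℂ) : Prop :=
  Differentiable ℂ Λ ∧ ∀ s : ℂ, 2 < s.re →
    Λ s = ((Real.sqrt N / (2 * Real.pi) : ℝ) : ℂ) ^ s * Complex.Gamma s *
      ∑' n : ℕ, coef f (n + 1) * ((n + 1 : ℕ) : ℂ) ^ (-s)

/-- The zeros of the `n`-th derivative of `Λ` with imaginary part in `(T, 2T]`. -/
def Zer (Λ : ℂ → ℂ) (n : ℕ) (T : ℝ) : Set ℂ := {s | iteratedDeriv n Λ s = 0 ∧ T < s.im ∧ s.im ≤ 2 * T}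

/-- The zero `s` of the `n`-th derivative is regular: it is simple and on the line `Re s = 1`, and the next zero above
it is again simple and on the line, at a distance `g` with `|g log (Im s) / π - 1| ≤ ε`; `s` and `s + i g` are the only
zeros with imaginary part in `[Im s, Im s + g]`. -/
def Regular (Λ : ℂ → ℂ) (ε : ℝ) (n : ℕ) (s : ℂ) : Prop :=
  s.re = 1 ∧ iteratedDeriv (n + 1) Λ s ≠ 0 ∧ ∃ g : ℝ, 0 < g ∧ |g * Real.log s.im / Real.pi - 1| ≤ ε ∧
    iteratedDeriv n Λ (s + g * Complex.I) = 0 ∧ iteratedDeriv (n + 1) Λ (s + g * Complex.I) ≠ 0 ∧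
    ∀ z : ℂ, iteratedDeriv n Λ z = 0 → s.im ≤ z.im → z.im ≤ s.im + g → z = s ∨ z = s + g * Complex.I

/-- The zeros which are not regular. -/
def Irregular (Λ : ℂ → ℂ) (ε : ℝ) (n : ℕ) (T : ℝ) : Set ℂ := {s | s ∈ Zer Λ n T ∧ ¬ Regular Λ ε n s}

/-- The number of points of `A`, each counted with its multiplicity as a zero of `Λ^(n)`. -/
noncomputable def num (Λ : ℂ → ℂ) (n : ℕ) (A : Set ℂ) : ℕ :=
  ∑ᶠ s ∈ A, analyticOrderNatAt (iteratedDeriv n Λ) s

/-- **Main theorem.** Let `E : y² = x³ + a x + b` be an elliptic curve over `ℚ` and `Λ` its completed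
L-function. For all `ε > 0` and `A` there are `c, C > 0` such that for all `n` and all `T ≥ 2` with `n ≤ A log T` at most
the proportion `C exp (-c n)` of the zeros of `Λ^(n)` with imaginary part in `(T, 2T]`, counted with
multiplicity, are irregular, i.e. off the line `Re s = 1`, or multiple, or not followed by a simple zero on the line at
the distance `(1 + O(ε)) π / log (Im s)` with no zeros in between; and the number of the irregular zeros is at
most `C exp (-c n) T log T`. -/
theorem result (a b : ℤ) (N : ℕ) [NeZero N] (f : CuspForm (Gamma0 N : Subgroup (GL (Fin 2) ℝ)) 2) (w : ℝ)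
    (_ : 4 * a ^ 3 + 27 * b ^ 2 ≠ 0) (hf : IsFormOf a b N f w) :
    ∃ Λ : ℂ → ℂ, IsCompleted f Λ ∧ (∀ Λ', IsCompleted f Λ' → Λ' = Λ) ∧
      (∀ s : ℂ, Λ (2 - s) = (w : ℂ) * Λ s) ∧
      (∀ (n : ℕ) (T : ℝ), 0 ≤ T → (Zer Λ n T).Finite) ∧
      ∀ ε A : ℝ, 0 < ε → ∃ c C : ℝ, 0 < c ∧ 0 < C ∧ ∀ (n : ℕ) (T : ℝ), 2 ≤ T → (n : ℝ) ≤ A * Real.log T →
        (num Λ n (Irregular Λ ε n T) : ℝ) ≤ C * Real.exp (-(c * n)) * num Λ n (Zer Λ n T) ∧
        (num Λ n (Irregular Λ ε n T) : ℝ) ≤ C * Real.exp (-(c * n)) * T * Real.log T := by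
  have hf' : Pool.Agent.W169.HF.IsForm N f w :=
    { one := hf.one
      real := hf.real
      mul := hf.mul
      pow := hf.pow
      sign := hf.sign
      fricke := hf.fricke
      good := hf.good
      bad := fun p hp hpN => by
        have h1 : (1 : ℝ) ≤ Real.sqrt p := by
          rw [Real.one_le_sqrt]
          exact_mod_cast hp.one_le
        have h2 : ‖coef f p‖ ≤ 1 := by
          rcases hf.bad p hp hpN with h | h | h <;> simp [h]
        exact h2.trans h1 }
  obtain ⟨Λ, hΛ, hfe, -, -⟩ := Pool.Agent.W174.HF.nf1 N f w hf'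
  obtain ⟨u, H, Z, hu, hG, hst, hA, hL, hH⟩ := Pool.Agent.Y671.GL.ec_data hf' hΛ
  have e1 : (fun z : ℂ => u * Λ (1 + z)) = fun z => u * Λ (((1 : ℝ) : ℂ) + z) := by
    funext z
    rw [Complex.ofReal_one]
  rw [e1] at hG hA hH hst hL
  obtain ⟨h1, h2⟩ := Pool.Agent.U4.DG.deriv_spacing (by norm_num) hu (Pool.Agent.Y693.GL.gy_one hG) hA hL hst hH
  refine ⟨Λ, hΛ, fun Λ' h' => Pool.Agent.W169.HF.completed_unique h' hΛ, hfe, h1, fun ε A hε => ?_⟩
  obtain ⟨c, C, hc, hC, h3⟩ := h2 ε A hε
  refine ⟨c, C, hc, hC, fun n T hT hn => ?_⟩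
  have hI : Irregular Λ ε n T = Pool.Agent.U4.DG.IW Λ 1 ε 1 n T := by
    ext s
    simp only [Irregular, Regular, Zer, Pool.Agent.U4.DG.IW, Pool.Agent.U4.DG.RegL, Pool.Agent.U4.DG.ZW, one_mul]
  rw [hI]
  exact h3 n T hT hn

end Pool.Agent.Results.MP_553913_nt.DerivativeSpacings
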