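import Mathlib
import Pool.Agent.U985.BM.B

/-!
# Zeros of L-functions of elliptic curves in short windows

Let `E` be any elliptic curve over `ℚ`, `N` its conductor, `L(E,s)` its L-function (with the functional
equation `s ↦ 2 - s`), and `Q(T) = N (1+|T|)²`.  We prove, with constants `h > 0` and `C` which do not depend
on the curve and on `T`:

* for `1 < σ < 3/2` the number of the zeros with `σ ≤ Re s < 3/2`, `|Im s - T| ≤ h` is at most
  `(sin(π(σ-1/2))/(4π) + ε) log Q(T) + C`;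
* the number of all zeros in the strip `1/2 < Re s < 3/2` with `|Im s - T| ≤ h` is at most
  `(1/(2π) + ε) log Q(T) + C`; in particular the order of the zero at `s = 1` is at most
  `(1/(2π) + ε) log N + C`.

A bound `L(E,1+it) ≪ Q(t)^(κ+ε)` on any class of curves, `0 < κ ≤ 1/4`, gives smaller constants on this class.

The proof: the inequality of Jensen in the strip `|Re z| ≤ 1/2 + δ` slit along two half lines of the
imaginary axis, for the even function `f(z) f(-z)`, `f(z) = L(E,1+iT+z) exp(z²)`; the length of the slits is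
optimal for the distance `σ - 1` of the zeros from the line.
-/

set_option autoImplicit false

open Complex

namespace Pool.Agent.Results.MP_553913_nt.LocalZeroDensity

/-- `p` minus the number of the points `(x,y)` modulo `p` with `y² = x³ + ax + b`. -/
noncomputable def ap (a b : ℤ) (p : ℕ) : ℤ :=
  (p : ℤ) - (((Finset.range p ×ˢ Finset.range p).filter
    (fun xy : ℕ × ℕ => (p : ℤ) ∣ (xy.2 : ℤ) ^ 2 -
      ((xy.1 : ℤ) ^ 3 + a * (xy.1 : ℤ) + b))).card : ℤ)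

/-- `F` is the L-function of `E : y² = x³ + ax + b` and `N` its conductor: the Euler product with
`a_p(E)` at the primes of good reduction of this model, Hasse's bound at the primes not dividing `N`,
`|c(p)| ≤ 1` at the primes dividing `N`, entire, of finite order in the strip, with the functional
equation of `N^(s/2) (2π)^(-s) Γ(s) F(s)` for `s ↦ 2 - s`, divided by the gamma factors of both sides. -/
structure IsLFun (a b : ℤ) (N : ℕ) (F : ℂ → ℂ) : Prop where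
  nonsingular : 4 * a ^ 3 + 27 * b ^ 2 ≠ 0
  one_le : 1 ≤ N
  entire : Differentiable ℂ F
  euler : ∃ c : ℕ → ℤ,
    (∀ p : ℕ, p.Prime → ¬ ((p : ℤ) ∣ 2 * (4 * a ^ 3 + 27 * b ^ 2)) → ¬ p ∣ N ∧ c p = ap a b p) ∧
    (∀ p : ℕ, p.Prime → ¬ p ∣ N → |(c p : ℝ)| ≤ 2 * Real.sqrt p) ∧
    (∀ p : ℕ, p.Prime → p ∣ N → |(c p : ℝ)| ≤ 1) ∧
    ∀ s : ℂ, 3 / 2 < s.re → F s = ∏' p : Nat.Primes,
      (1 - ((c p : ℝ) : ℂ) * ((p : ℕ) : ℂ) ^ (-s) +
        (if (p : ℕ) ∣ N then 0 else ((p : ℕ) : ℂ) ^ (1 - 2 * s)))⁻¹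
  functional : ∃ w : ℂ, ‖w‖ = 1 ∧ ∀ s : ℂ,
    F s * (Gammaℂ (2 - s))⁻¹ = w * (N : ℂ) ^ (1 - s) * F (2 - s) * (Gammaℂ s)⁻¹
  order : ∃ A : ℝ, ∀ s : ℂ, 1 / 4 ≤ s.re → s.re ≤ 7 / 4 → ‖F s‖ ≤ Real.exp (A * (1 + |s.im|) ^ A)

/-- The pairs: conductor and L-function of the elliptic curves over `ℚ`. -/
def Ell (N : ℕ) (F : ℂ → ℂ) : Prop := ∃ a b : ℤ, IsLFun a b N F

/-- the conductor at height `t` -/
noncomputable def Q (N : ℕ) (t : ℝ) : ℝ := N * (1 + |t|) ^ 2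

/-- `F(1+it) ≪ Q(t)^(κ+ε)` for the pairs of the class `P`. -/
def Size (P : ℕ → (ℂ → ℂ) → Prop) (κ : ℝ) : Prop :=
  ∀ ε : ℝ, 0 < ε → ∃ C : ℝ, ∀ (N : ℕ) (F : ℂ → ℂ), P N F → ∀ t : ℝ,
    ‖F ⟨1, t⟩‖ ≤ C * Q N t ^ (κ + ε)

/-- the zeros of `F` in `A` -/
def Zeros (F : ℂ → ℂ) (A : Set ℂ) : Set ℂ := {s : ℂ | s ∈ A ∧ F s = 0}

/-- the number of the zeros of `F` in `A`, counted with multiplicity -/
noncomputable def Nz (F : ℂ → ℂ) (A : Set ℂ) : ℕ := ∑ᶠ s ∈ Zeros F A, analyticOrderNatAt F s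

/-- the part `|Im s - T| ≤ h` of the strip `1/2 < Re s < 3/2` -/
def Box (T h : ℝ) : Set ℂ := {s : ℂ | 1 / 2 < s.re ∧ s.re < 3 / 2 ∧ |s.im - T| ≤ h}

/-- its part with `Re s ≥ σ` -/
def RBox (σ T h : ℝ) : Set ℂ := {s : ℂ | σ ≤ s.re ∧ s.re < 3 / 2 ∧ |s.im - T| ≤ h}

/-- the constant `c(κ,σ)`; `sin(π(σ - 1/2)) = - cos(πσ)` -/
noncomputable def c (κ σ : ℝ) : ℝ :=
  if 1 - 4 * κ < Real.cos (Real.pi * σ) ^ 2 then
    Real.sqrt (Real.cos (Real.pi * σ) ^ 2 - (1 - 4 * κ) ^ 2) / (2 * Real.pi)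
  else 2 * κ * |Real.cos (Real.pi * σ) / Real.sin (Real.pi * σ)| / Real.pi

/-! ### proofs -/

theorem nat_cpow_conj (p : ℕ) (s : ℂ) :
    (p : ℂ) ^ ((starRingEnd ℂ) s) = (starRingEnd ℂ) ((p : ℂ) ^ s) := by
  rw [Complex.cpow_conj _ _ (by rw [Complex.natCast_arg]; exact Real.pi_ne_zero.symm), Complex.conj_natCast]

theorem real_F {a b : ℤ} {N : ℕ} {F : ℂ → ℂ} (h : IsLFun a b N F) (s : ℂ) :
    F ((starRingEnd ℂ) s) = (starRingEnd ℂ) (F s) := by
  obtain ⟨c, -, -, -, he⟩ := h.euler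
  apply U985.BM.conj_entire h.entire (x := 3 / 2)
  intro z hz
  rw [he z hz, he _ (by rw [conj_re]; exact hz)]
  apply U985.BM.conj_tprod
  intro p
  have e1 := nat_cpow_conj (p : ℕ) (-z)
  have e2 := nat_cpow_conj (p : ℕ) (1 - 2 * z)
  rw [map_neg] at e1
  rw [map_sub, map_one, map_mul, map_ofNat] at e2
  rw [map_inv₀, map_add, map_sub, map_one, map_mul, conj_ofReal, e1, apply_ite (starRingEnd ℂ),
    map_zero, e2]

/-- the analytic data -/
theorem exists_AM {N : ℕ} {F : ℂ → ℂ} (hF : Ell N F) :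
    ∃ A : U985.BM.AM 3 2, A.N = N ∧ ∀ z, A.L z = F (z + 1 / 2) := by
  obtain ⟨a, b, h⟩ := hF
  obtain ⟨c, -, hc1, hc2, he⟩ := h.euler
  obtain ⟨w, hw, hfe⟩ := h.functional
  refine ⟨⟨N, ![1, 3], w, fun z => F (z + 1 / 2), h.one_le, ?_, hw, ?_, ?_, ?_, ?_⟩, rfl,
    fun z => rfl⟩
  · intro j
    fin_cases j <;> simp
  · exact h.entire.comp (by fun_prop : Differentiable ℂ fun z : ℂ => z + 1 / 2)
  · intro r hr s hs
    have hre : (s + 1 / 2).re = s.re + 1 / 2 := by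
      rw [add_re]
      norm_num
    show ‖F (s + 1 / 2)‖ ≤ _ ∧ _ ≤ ‖F (s + 1 / 2)‖
    rw [he (s + 1 / 2) (by rw [hre]; linarith)]
    apply U985.BM.prod_bounds hr
    intro p
    exact U985.BM.local_factor p.2 hr (by rw [hre]; linarith) (hc1 p p.2) (hc2 p p.2)
  · intro s
    have h1 := hfe (s + 1 / 2)
    have e1 : (2 : ℂ) - (s + 1 / 2) = 1 - s + 1 / 2 := by ring
    have e2 : (1 : ℂ) - (s + 1 / 2) = 1 / 2 - s := by ring
    rw [e1, e2, ← Gammaℝ_mul_Gammaℝ_add_one (1 - s + 1 / 2), ← Gammaℝ_mul_Gammaℝ_add_one (s + 1 / 2)] at h1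
    have e3 : (starRingEnd ℂ) (F (1 - (starRingEnd ℂ) s + 1 / 2)) = F (1 - s + 1 / 2) := by
      have e4 : 1 - (starRingEnd ℂ) s + 1 / 2 = (starRingEnd ℂ) (1 - s + 1 / 2) := by
        rw [map_add, map_sub, map_div₀, map_one, map_ofNat]
      rw [e4, real_F h, Complex.conj_conj]
    show F (s + 1 / 2) * _ = w * _ * (starRingEnd ℂ) (F (1 - (starRingEnd ℂ) s + 1 / 2)) * _
    rw [e3, Fin.prod_univ_two, Fin.prod_univ_two]
    have g0 : (((((![1, 3] : Fin 2 → ℕ) 0 : ℕ) : ℝ) / 2 : ℝ) : ℂ) = 1 / 2 := by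
      simp
    have g1 : (((((![1, 3] : Fin 2 → ℕ) 1 : ℕ) : ℝ) / 2 : ℝ) : ℂ) = 1 / 2 + 1 := by
      simp
      norm_num
    rw [g0, g1, ← add_assoc, ← add_assoc, ← mul_inv, ← mul_inv]
    exact h1
  · obtain ⟨A, hA⟩ := h.order
    refine ⟨A, fun s hs1 hs2 => ?_⟩
    have hre : (s + 1 / 2).re = s.re + 1 / 2 := by
      rw [add_re]
      norm_num
    have him : (s + 1 / 2).im = s.im := by
      rw [add_im]
      norm_num
    have := hA (s + 1 / 2) (by rw [hre]; linarith) (by rw [hre]; linarith)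
    rw [him] at this
    exact this

theorem order_eq {A : U985.BM.AM 3 2} {F : ℂ → ℂ} (hF : Differentiable ℂ F)
    (h : ∀ z, A.L z = F (z + 1 / 2)) (z : ℂ) : analyticOrderNatAt F (z + 1 / 2) = analyticOrderNatAt A.L z := by
  have e : A.L = F ∘ fun z => z + 1 / 2 := funext h
  have h3 : analyticOrderAt (F ∘ fun z : ℂ => z + 1 / 2) z = analyticOrderAt F (z + 1 / 2) := by
    apply analyticOrderAt_comp_of_deriv_ne_zero (g := fun z : ℂ => z + 1 / 2)
    · have : Differentiable ℂ fun z : ℂ => z + 1 / 2 := by fun_prop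
      exact this.analyticAt z
    · rw [deriv_add_const, deriv_id'']
      exact one_ne_zero
  unfold analyticOrderNatAt
  rw [e, h3]

theorem transfer {A : U985.BM.AM 3 2} {F : ℂ → ℂ} (hF : Differentiable ℂ F)
    (h : ∀ z, A.L z = F (z + 1 / 2)) {B Z : Set ℂ}
    (hB : ∀ z : ℂ, z ∈ Z ↔ A.L z = 0 ∧ z + 1 / 2 ∈ B) (hfin : Z.Finite) :
    (Zeros F B).Finite ∧ Nz F B = ∑ᶠ z ∈ Z, analyticOrderNatAt A.L z := by
  have hset : Zeros F B = (fun z : ℂ => z + 1 / 2) '' Z := by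
    ext s
    constructor
    · rintro ⟨h1, h2⟩
      refine ⟨s - 1 / 2, ?_, by simp⟩
      rw [hB, h]
      have e : s - 1 / 2 + 1 / 2 = s := by ring
      rw [e]
      exact ⟨h2, h1⟩
    · rintro ⟨z, hz, rfl⟩
      rw [hB, h] at hz
      exact ⟨hz.2, hz.1⟩
  have hinj : Set.InjOn (fun z : ℂ => z + 1 / 2) Z := fun x _ y _ hxy => add_left_injective _ hxy
  constructor
  · rw [hset]
    exact hfin.image _
  · unfold Nz
    rw [hset, finsum_mem_image hinj]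
    apply finsum_mem_congr rfl
    intro z _
    exact order_eq hF h z

theorem re_half (z : ℂ) : (z + 1 / 2).re = z.re + 1 / 2 := by
  rw [add_re]
  norm_num

theorem im_half (z : ℂ) : (z + 1 / 2).im = z.im := by
  rw [add_im]
  norm_num

theorem size_quarter : Size Ell (1 / 4) := by
  intro ε hε
  obtain ⟨C, hC⟩ := U985.BM.sub_quarter 3 2 ε hε
  refine ⟨C, fun N F hF t => ?_⟩
  obtain ⟨A, rfl, h⟩ := exists_AM hF
  have h1 := hC A trivial t
  rw [h] at h1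
  have e : (⟨1 / 2, t⟩ : ℂ) + 1 / 2 = ⟨1, t⟩ := by
    apply Complex.ext
    · rw [re_half]
      norm_num
    · rw [im_half]
  rw [e] at h1
  exact h1

theorem c_eq {κ σ : ℝ} (h0 : 1 < σ) (h1 : σ < 3 / 2) :
    U985.BG.DD κ (Real.sin (Real.pi * (σ - 1 / 2))) = c κ σ := by
  have hpi := Real.pi_pos
  have e0 : Real.sin (Real.pi * (σ - 1 / 2)) = -Real.cos (Real.pi * σ) := by
    rw [show Real.pi * (σ - 1 / 2) = Real.pi * σ - Real.pi / 2 by ring, Real.sin_sub_pi_div_two]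
  have hs : 0 < Real.sin (Real.pi * (σ - 1 / 2)) := by
    apply Real.sin_pos_of_pos_of_lt_pi
    · apply mul_pos hpi
      linarith
    · nlinarith
  unfold U985.BG.DD c
  rw [e0, neg_sq]
  rw [e0] at hs
  split_ifs
  · rfl
  · have e1 : Real.sqrt (1 - Real.cos (Real.pi * σ) ^ 2) = |Real.sin (Real.pi * σ)| := by
      rw [← Real.sqrt_sq_eq_abs]
      congr 1
      linarith [Real.sin_sq_add_cos_sq (Real.pi * σ)]
    have hc : |Real.cos (Real.pi * σ)| = -Real.cos (Real.pi * σ) := abs_of_neg (by linarith)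
    rw [e1, abs_div, hc]
    ring

theorem c_quarter {σ : ℝ} (h0 : 1 < σ) (h1 : σ < 3 / 2) :
    c (1 / 4) σ = Real.sin (Real.pi * (σ - 1 / 2)) / (2 * Real.pi) := by
  have hpi := Real.pi_pos
  have hs : 0 < Real.sin (Real.pi * (σ - 1 / 2)) := by
    apply Real.sin_pos_of_pos_of_lt_pi
    · apply mul_pos hpi
      linarith
    · nlinarith
  rw [← c_eq h0 h1]
  unfold U985.BG.DD
  rw [if_pos (by norm_num; positivity)]
  congr 1
  norm_num
  exact Real.sqrt_sq hs.le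

theorem c_one {κ : ℝ} (h0 : 0 < κ) : U985.BG.DD κ 1 = Real.sqrt (2 * κ * (1 - 2 * κ)) / Real.pi := by
  have hpi := Real.pi_pos
  unfold U985.BG.DD
  rw [if_pos (by linarith), show (1 : ℝ) ^ 2 - (1 - 4 * κ) ^ 2 = 2 ^ 2 * (2 * κ * (1 - 2 * κ)) by ring,
    Real.sqrt_mul (by norm_num), Real.sqrt_sq (by norm_num)]
  field_simp

theorem main {P : ℕ → (ℂ → ℂ) → Prop} {κ : ℝ} (hP : ∀ N F, P N F → Ell N F) (h0 : 0 < κ)
    (h1 : κ ≤ 1 / 4) (hS : Size P κ) {ε : ℝ} (hε : 0 < ε) :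
    (∀ σ : ℝ, 1 < σ → σ < 3 / 2 → ∃ h C : ℝ, 0 < h ∧ ∀ (N : ℕ) (F : ℂ → ℂ), P N F → ∀ T : ℝ,
      (Zeros F (RBox σ T h)).Finite ∧
        (Nz F (RBox σ T h) : ℝ) ≤ (c κ σ / 2 + ε) * Real.log (Q N T) + C) ∧
    (∃ h C : ℝ, 0 < h ∧ ∀ (N : ℕ) (F : ℂ → ℂ), P N F → ∀ T : ℝ,
      (Zeros F (Box T h)).Finite ∧
        (Nz F (Box T h) : ℝ) ≤
          (Real.sqrt (2 * κ * (1 - 2 * κ)) / Real.pi + ε) * Real.log (Q N T) + C) := by
  set S : U985.BM.AM 3 2 → Prop := fun A => P A.N (fun z => A.L (z - 1 / 2)) with hSd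
  have hg : U985.BM.SubA S κ := by
    intro e he
    obtain ⟨C, hC⟩ := hS e he
    refine ⟨C, fun A hA t => ?_⟩
    have h2 := hC A.N _ hA t
    have e1 : (⟨1, t⟩ : ℂ) - 1 / 2 = ⟨1 / 2, t⟩ := by
      apply Complex.ext
      · rw [sub_re]
        norm_num
      · rw [sub_im]
        norm_num
    rw [e1] at h2
    exact h2
  have hAS : ∀ (A : U985.BM.AM 3 2) (F : ℂ → ℂ), P A.N F → (∀ z, A.L z = F (z + 1 / 2)) → S A := by
    intro A F hA h
    have : (fun z => A.L (z - 1 / 2)) = F := by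
      funext z
      rw [h]
      congr 1
      ring
    simp only [hSd]
    rw [this]
    exact hA
  have hent : ∀ (N : ℕ) (F : ℂ → ℂ), P N F → Differentiable ℂ F := by
    intro N F hF
    obtain ⟨a, b, h⟩ := hP N F hF
    exact h.entire
  constructor
  · intro σ hσ0 hσ1
    obtain ⟨h, C, hh, H⟩ := U985.BM.offA (σ := σ - 1 / 2) h0 h1 (by linarith) (by linarith) hg hε
    refine ⟨h, C, hh, fun N F hF T => ?_⟩
    obtain ⟨A, rfl, hA⟩ := exists_AM (hP N F hF)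
    have h2 := H A (hAS A F hF hA) T
    rw [c_eq hσ0 hσ1] at h2
    obtain ⟨k1, k2⟩ := transfer (hent _ F hF) hA (B := RBox σ T h)
      (Z := U985.BM.ZR A (σ - 1 / 2) T h) (by
        intro z
        unfold U985.BM.ZR RBox
        simp only [Set.mem_ofPred_eq, re_half, im_half]
        constructor
        · rintro ⟨a1, a2, a3, a4⟩
          exact ⟨a1, by linarith, by linarith, a4⟩
        · rintro ⟨a1, a2, a3, a4⟩
          exact ⟨a1, by linarith, by linarith, a4⟩) h2.1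
    refine ⟨k1, ?_⟩
    rw [k2]
    exact h2.2
  · obtain ⟨h, C, hh, H⟩ := U985.BM.allA h0 h1 hg hε
    refine ⟨h, C, hh, fun N F hF T => ?_⟩
    obtain ⟨A, rfl, hA⟩ := exists_AM (hP N F hF)
    have h2 := H A (hAS A F hF hA) T
    rw [c_one h0] at h2
    obtain ⟨k1, k2⟩ := transfer (hent _ F hF) hA (B := Box T h)
      (Z := U985.BM.ZA A 0 T h) (by
        intro z
        unfold U985.BM.ZA Box
        simp only [Set.mem_ofPred_eq, re_half, im_half]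
        constructor
        · rintro ⟨a1, a2, a3, a4, a5⟩
          exact ⟨a1, by linarith, by linarith, a5⟩
        · rintro ⟨a1, a2, a3, a4⟩
          exact ⟨a1, by linarith, by linarith, abs_nonneg _, a4⟩) h2.1
    refine ⟨k1, ?_⟩
    rw [k2]
    exact h2.2

theorem order_one {F : ℂ → ℂ} (hF : Differentiable ℂ F) {h : ℝ} (hh : 0 < h)
    (hfin : (Zeros F (Box 0 h)).Finite) : analyticOrderNatAt F 1 ≤ Nz F (Box 0 h) := by
  classical
  by_cases h1 : F 1 = 0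
  · unfold Nz
    rw [finsum_mem_eq_finite_toFinset_sum _ hfin]
    apply Finset.single_le_sum (f := fun s => analyticOrderNatAt F s) (fun _ _ => Nat.zero_le _)
    rw [hfin.mem_toFinset]
    refine ⟨⟨?_, ?_, ?_⟩, h1⟩
    · rw [one_re]; norm_num
    · rw [one_re]; norm_num
    · rw [one_im, sub_zero, abs_zero]; exact hh.le
  · have : analyticOrderAt F 1 = 0 := (hF.analyticAt 1).analyticOrderAt_eq_zero.2 h1
    unfold analyticOrderNatAt
    rw [this]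
    exact Nat.zero_le _

/-- **The theorem.** For the L-functions of all elliptic curves over `ℚ`: (1) the number of zeros with
`Re s ≥ σ > 1` and `|Im s - T| ≤ h`; (2) the number of all zeros of the strip with `|Im s - T| ≤ h`;
(3) the order of the zero at `s = 1`; (4) on a class with the exponent `κ` on the line `Re s = 1`; (5) the
exponent `1/4`. -/
theorem result :
    (∀ σ ε : ℝ, 1 < σ → σ < 3 / 2 → 0 < ε → ∃ h C : ℝ, 0 < h ∧
      ∀ (N : ℕ) (F : ℂ → ℂ), Ell N F → ∀ T : ℝ, (Zeros F (RBox σ T h)).Finite ∧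
        (Nz F (RBox σ T h) : ℝ) ≤
          (Real.sin (Real.pi * (σ - 1 / 2)) / (4 * Real.pi) + ε) * Real.log (N * (1 + |T|) ^ 2) + C) ∧
    (∀ ε : ℝ, 0 < ε → ∃ h C : ℝ, 0 < h ∧
      ∀ (N : ℕ) (F : ℂ → ℂ), Ell N F → ∀ T : ℝ, (Zeros F (Box T h)).Finite ∧
        (Nz F (Box T h) : ℝ) ≤ (1 / (2 * Real.pi) + ε) * Real.log (N * (1 + |T|) ^ 2) + C) ∧
    (∀ ε : ℝ, 0 < ε → ∃ C : ℝ, ∀ (N : ℕ) (F : ℂ → ℂ), Ell N F →
      (analyticOrderNatAt F 1 : ℝ) ≤ (1 / (2 * Real.pi) + ε) * Real.log N + C) ∧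
    (∀ (P : ℕ → (ℂ → ℂ) → Prop) (κ : ℝ), (∀ N F, P N F → Ell N F) → 0 < κ → κ ≤ 1 / 4 →
      Size P κ → ∀ ε : ℝ, 0 < ε →
      (∀ σ : ℝ, 1 < σ → σ < 3 / 2 → ∃ h C : ℝ, 0 < h ∧ ∀ (N : ℕ) (F : ℂ → ℂ), P N F → ∀ T : ℝ,
        (Zeros F (RBox σ T h)).Finite ∧
          (Nz F (RBox σ T h) : ℝ) ≤ (c κ σ / 2 + ε) * Real.log (Q N T) + C) ∧
      (∃ h C : ℝ, 0 < h ∧ ∀ (N : ℕ) (F : ℂ → ℂ), P N F → ∀ T : ℝ,
        (Zeros F (Box T h)).Finite ∧
          (Nz F (Box T h) : ℝ) ≤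
            (Real.sqrt (2 * κ * (1 - 2 * κ)) / Real.pi + ε) * Real.log (Q N T) + C)) ∧
    Size Ell (1 / 4) := by
  have h2 : ∀ ε : ℝ, 0 < ε → ∃ h C : ℝ, 0 < h ∧
      ∀ (N : ℕ) (F : ℂ → ℂ), Ell N F → ∀ T : ℝ, (Zeros F (Box T h)).Finite ∧
        (Nz F (Box T h) : ℝ) ≤ (1 / (2 * Real.pi) + ε) * Real.log (N * (1 + |T|) ^ 2) + C := by
    intro ε hε
    obtain ⟨h, C, hh, H⟩ := (main (P := Ell) (fun _ _ h => h) (by norm_num) le_rfl
      size_quarter hε).2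
    refine ⟨h, C, hh, fun N F hF T => ?_⟩
    obtain ⟨g1, g2⟩ := H N F hF T
    refine ⟨g1, ?_⟩
    have e : Real.sqrt (2 * (1 / 4) * (1 - 2 * (1 / 4))) / Real.pi = 1 / (2 * Real.pi) := by
      have e1 : Real.sqrt (2 * (1 / 4) * (1 - 2 * (1 / 4))) = 1 / 2 := by
        rw [show (2 : ℝ) * (1 / 4) * (1 - 2 * (1 / 4)) = (1 / 2) ^ 2 by norm_num]
        exact Real.sqrt_sq (by norm_num)
      rw [e1, div_div]
    rw [e] at g2
    exact g2
  refine ⟨?_, h2, ?_, fun P κ hP h0 h1 hS ε hε => main hP h0 h1 hS hε, size_quarter⟩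
  · intro σ ε hσ0 hσ1 hε
    obtain ⟨h, C, hh, H⟩ := (main (P := Ell) (fun _ _ h => h) (by norm_num) le_rfl
      size_quarter hε).1 σ hσ0 hσ1
    refine ⟨h, C, hh, fun N F hF T => ?_⟩
    obtain ⟨g1, g2⟩ := H N F hF T
    refine ⟨g1, ?_⟩
    rw [c_quarter hσ0 hσ1] at g2
    have e : Real.sin (Real.pi * (σ - 1 / 2)) / (2 * Real.pi) / 2 =
        Real.sin (Real.pi * (σ - 1 / 2)) / (4 * Real.pi) := by
      rw [div_div]
      congr 1
      ring
    rw [e] at g2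
    exact g2
  · intro ε hε
    obtain ⟨h, C, hh, H⟩ := h2 ε hε
    refine ⟨C, fun N F hF => ?_⟩
    obtain ⟨g1, g2⟩ := H N F hF 0
    obtain ⟨a, b, hab⟩ := id hF
    have g3 := order_one hab.entire hh g1
    have g4 : (analyticOrderNatAt F 1 : ℝ) ≤ (Nz F (Box 0 h) : ℝ) := by exact_mod_cast g3
    rw [abs_zero, add_zero, one_pow, mul_one] at g2
    linarith

end Pool.Agent.Results.MP_553913_nt.LocalZeroDensity
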