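import Pool.Agent.U693.QT.Local
import Pool.Agent.Y812.QTN2

/-!
# The zeros of `L(E_d, s)` in short intervals of the critical line, for almost all quadratic twists

`E_d : y² = x³ + a d² x + b d³`, `d` squarefree (positive or negative), are the quadratic twists of
`E : y² = x³ + a x + b`; the critical line is `Re s = 1`.  Let `N_d(t, η)` be the number of zeros of
`L(E_d, s)`, with multiplicities, in the disc `|s - (1 + it)| ≤ η`, `0 ≤ η ≤ 1/400` (for `η = 0` this is
the multiplicity of the zero `1 + it`).  We prove, without any hypothesis, for all `E` with
`j`-invariant `0` or `1728` and for all quadratic twists of `X₀(11)` and `X₀(14)`, and for every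
elliptic curve over `ℚ` whose quadratic twists are modular:

* `∑_{|d| ≤ X} X^(-2 η_d) (2 + |t_d|)^(-B) exp(c N_d(t_d, η_d)) ≤ C X (log X)^A` for arbitrary centres
  `1 + i t_d` and radii `η_d`, with a positive constant `c`;
* the moments of every order `k` of `N_d(t_d, η_d) / (1 + log log X + log (2 + |t_d|) + η_d log X)` over
  arbitrary sets `S` of twists are `O(|S| + X / (log X)^M)`;
* for all `|d| ≤ X` except `O(X / (log X)^M)` one has, for all real `t` and all `η ≤ 1/400` at once,
  `N_d(t, η) ≤ K' (1 + log log X + log (2 + |t|) + η log X)`.

The last bound is, up to the terms `log log X + log (2 + |t|)`, of the order of the expected number of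
zeros; in particular all zeros of almost all `L(E_d, s)` have multiplicity `O(log log X + log (2 + |t|))`
(the Riemann hypothesis for `L(E_d, s)` gives `log X / log log X` only, for bounded `t`).

The proof uses the large sieve inequality for quadratic characters with a loss of a power of `log X` of
the starting library (project QT): many zeros in a disc of radius `η` force a large value of the mean of
the mollified `L`-function over an annulus of radius about `δ > η`, relative to its value at
`1 + δ + it`, which is close to `1` for all twists but few. All estimates are uniform in the height.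
-/

set_option autoImplicit false

namespace Pool.Agent.Results.MP_553913_nt.LocalZeros

open Pool.Agent.Y19.QT Pool.Agent.U693.QT

theorem result : (∀ a b : ℤ, Fam a b → LocalLaw a b) ∧
    ∀ a b : ℤ, 4 * a ^ 3 + 27 * b ^ 2 ≠ 0 → TwistsModular a b → LocalLaw a b :=
  ⟨fun _ _ h => localLaw_of h.disc h.data.1 h.data.2,
    fun _ _ hab h => localLaw_of hab (Pool.Agent.Y812.QTN2.of_twistsModular hab h).1
      fun d hd => (Pool.Agent.Y812.QTN2.of_twistsModular hab h).2 d hd.ne_zero⟩

end Pool.Agent.Results.MP_553913_nt.LocalZeros
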